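import Pool.Agent.Helper54.PW.Defs
import Pool.Agent.Helper18.PW.Places1
import Pool.Agent.Helper79.PW.Transitive
import Pool.Agent.Helper51.PW.Degree
import Pool.Agent.Helper92.PW.DefsReal

set_option autoImplicit false
open scoped Pointwise

namespace Pool.Agent.Helper54.PW

namespace L1Aux

theorem rat_algHom_ext {k : Type} [Field k] {f g : RatFunc k →ₐ[k] RatFunc k}
    (h : f RatFunc.X = g RatFunc.X) : f = g := by
  apply IsLocalization.algHom_ext (nonZeroDivisors (Polynomial k))
  apply Polynomial.algHom_ext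
  have e : (Algebra.algHom k (Polynomial k) (RatFunc k)) Polynomial.X = RatFunc.X :=
    RatFunc.algebraMap_X
  rw [AlgHom.comp_apply, AlgHom.comp_apply, e]
  exact h

/-- the substitution `X ↦ t` for `t` transcendental -/
noncomputable def subst {k : Type} [Field k] (t : RatFunc k) (ht : Transcendental k t) :
    RatFunc k →ₐ[k] RatFunc k :=
  RatFunc.liftAlgHom (Polynomial.aeval t) (nonZeroDivisors_le_comap_nonZeroDivisors_of_injective _
    (transcendental_iff_injective.mp ht))

theorem subst_X {k : Type} [Field k] (t : RatFunc k) (ht : Transcendental k t) :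
    subst t ht RatFunc.X = t := by
  have := RatFunc.liftAlgHom_apply_div (Polynomial.aeval t)
    (nonZeroDivisors_le_comap_nonZeroDivisors_of_injective _
    (transcendental_iff_injective.mp ht)) (Polynomial.X : Polynomial k) 1
  simpa [subst] using this

theorem trans1 {k : Type} [Field k] (c : k) :
    Transcendental k (algebraMap k (RatFunc k) c + (RatFunc.X)⁻¹) := by
  intro h
  have h1 : IsAlgebraic k ((RatFunc.X : RatFunc k)⁻¹) := by
    have := h.sub (isAlgebraic_algebraMap c)
    rwa [add_sub_cancel_left] at this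
  have h2 := h1.inv
  rw [inv_inv] at h2
  exact RatFunc.transcendental_X h2

theorem trans2 {k : Type} [Field k] (c : k) :
    Transcendental k ((RatFunc.X - algebraMap k (RatFunc k) c)⁻¹) := by
  intro h
  have h2 := h.inv
  rw [inv_inv] at h2
  have := h2.add (isAlgebraic_algebraMap c)
  rw [sub_add_cancel] at this
  exact RatFunc.transcendental_X this

theorem coord {k : Type} [Field k] [IsAlgClosed k] (x : ValuationSubring (RatFunc k))
    (hx : x ≠ ⊤) (hxk : ∀ c : k, algebraMap k (RatFunc k) c ∈ x) :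
    ∃ σ : RatFunc k ≃ₐ[k] RatFunc k, ∀ f, f ∈ x ↔ (σ f = 0 ∨ (σ f).intDegree ≤ 0) := by
  by_cases hX : (RatFunc.X : RatFunc k) ∈ x
  · obtain ⟨c, hc⟩ := residue (ff_of_algebraic k (RatFunc k)) x ⟨hx, hxk⟩ _ hX
    have hXc : (RatFunc.X - algebraMap k (RatFunc k) c) ≠ 0 := by
      intro h
      rw [sub_eq_zero] at h
      apply RatFunc.transcendental_X (K := k)
      rw [h]
      exact isAlgebraic_algebraMap c
    let f := subst _ (trans1 c)
    let g := subst _ (trans2 c)
    have hf : f RatFunc.X = algebraMap k (RatFunc k) c + (RatFunc.X)⁻¹ := subst_X _ _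
    have hg : g RatFunc.X = (RatFunc.X - algebraMap k (RatFunc k) c)⁻¹ := subst_X _ _
    have h1 : f.comp g = AlgHom.id k _ := by
      apply rat_algHom_ext
      rw [AlgHom.comp_apply, hg, map_inv₀, map_sub, hf, AlgHom.commutes]
      simp
    have h2 : g.comp f = AlgHom.id k _ := by
      apply rat_algHom_ext
      rw [AlgHom.comp_apply, hf, map_add, map_inv₀, hg, AlgHom.commutes]
      simp
    let σ : RatFunc k ≃ₐ[k] RatFunc k := AlgEquiv.ofAlgHom f g h1 h2
    refine ⟨σ, fun a => ?_⟩
    -- the valuation ring y = {b : g b ∈ x}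
    have hy := (mem_place_iff (k := k) (F := RatFunc k) (x.comap (g : RatFunc k →+* RatFunc k))
      (fun c => by
        change g (algebraMap k (RatFunc k) c) ∈ x
        rw [AlgHom.commutes]
        exact hxk c)
      (by
        change g RatFunc.X ∉ x
        rw [hg]
        intro hmem
        rcases (ValuationSubring.mem_nonunits_iff_or _).mp hc with h | h
        · exact hXc h
        · exact h hmem)
      (σ a)).1
    rw [← hy]
    change a ∈ x ↔ g (f a) ∈ x
    have : g (f a) = a := by
      have := DFunLike.congr_fun h2 a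
      simpa using this
    rw [this]
  · refine ⟨AlgEquiv.refl, fun a => ?_⟩
    exact (mem_place_iff (k := k) (F := RatFunc k) x hxk hX a).1

theorem change {K K' F : Type} [Field K] [Field K'] [Field F] [Algebra K F] [Algebra K' F]
    (σ : K' ≃+* K) (h : ∀ f, algebraMap K' F f = algebraMap K F (σ f))
    [FiniteDimensional K F] [IsGalois K F] :
    FiniteDimensional K' F ∧ IsGalois K' F ∧
      ∃ e : (F ≃ₐ[K'] F) ≃* (F ≃ₐ[K] F), ∀ τ y, e τ y = τ y := by
  have hc : (algebraMap K' F).comp (σ.symm : K →+* K')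
      = (RingEquiv.refl F : F →+* F).comp (algebraMap K F) := by
    ext r
    simp [h]
  have h' : ∀ f, algebraMap K F f = algebraMap K' F (σ.symm f) := by
    intro f
    simp [h]
  refine ⟨Module.Finite.of_equiv_equiv σ.symm (RingEquiv.refl F) hc,
    IsGalois.of_equiv_equiv (f := σ.symm) (g := RingEquiv.refl F) hc, ?_⟩
  refine ⟨{ toFun := fun τ => AlgEquiv.ofRingEquiv (f := τ.toRingEquiv) (fun r => by
              rw [h' r]
              exact τ.commutes _)
            invFun := fun τ => AlgEquiv.ofRingEquiv (f := τ.toRingEquiv) (fun r => by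
              rw [h r]
              exact τ.commutes _)
            left_inv := fun τ => by ext; rfl
            right_inv := fun τ => by ext; rfl
            map_mul' := fun τ τ' => by ext; rfl }, fun τ y => rfl⟩

theorem transfer {k K' F G : Type} [Field k] [Field K'] [Field F] [Group G] [Algebra k K']
    [Algebra (RatFunc k) F] [Algebra K' F] [FiniteDimensional (RatFunc k) F]
    [IsGalois (RatFunc k) F] (σ : K' ≃+* RatFunc k)
    (hσc : ∀ c : k, σ (algebraMap k K' c) = algebraMap k (RatFunc k) c)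
    (h : ∀ f, algebraMap K' F f = algebraMap (RatFunc k) F (σ f))
    (x : ValuationSubring K') (hx : ∀ f, f ∈ x ↔ (σ f = 0 ∨ (σ f).intDegree ≤ 0))
    (P : Subgroup G) (ρ : (F ≃ₐ[RatFunc k] F) →* G) (hρ : Function.Surjective ρ)
    (h1 : ∀ A : ValuationSubring F, A ≠ ⊤ →
      (∀ c : k, algebraMap (RatFunc k) F (algebraMap k (RatFunc k) c) ∈ A) →
      tX k F ∈ A → ∀ σ : F ≃ₐ[RatFunc k] F, σ • A = A → ρ σ = 1)
    (h2 : ∃ A : ValuationSubring F, A ≠ ⊤ ∧
      (∀ c : k, algebraMap (RatFunc k) F (algebraMap k (RatFunc k) c) ∈ A) ∧ tX k F ∉ A ∧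
      ∀ g, g ∈ P ↔ ∃ σ : F ≃ₐ[RatFunc k] F, σ • A = A ∧ ρ σ = g) :
    FiniteDimensional K' F ∧ IsGalois K' F ∧
    ∃ ρ : (F ≃ₐ[K'] F) →* G, Function.Surjective ρ ∧
    (∀ A : ValuationSubring F, A ≠ ⊤ →
      (∀ c : k, algebraMap K' F (algebraMap k K' c) ∈ A) →
      A.comap (algebraMap K' F) ≠ x → ∀ σ : F ≃ₐ[K'] F, σ • A = A → ρ σ = 1) ∧
    ∃ A : ValuationSubring F, A ≠ ⊤ ∧
      (∀ c : k, algebraMap K' F (algebraMap k K' c) ∈ A) ∧
      A.comap (algebraMap K' F) = x ∧
      ∀ g, g ∈ P ↔ ∃ σ : F ≃ₐ[K'] F, σ • A = A ∧ ρ σ = g := by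
  obtain ⟨hfd, hgal, e, he⟩ := change σ h
  let _ : Algebra k F := ((algebraMap (RatFunc k) F).comp (algebraMap k (RatFunc k))).toAlgebra
  have : IsScalarTower k (RatFunc k) F := IsScalarTower.of_algebraMap_eq' rfl
  have hcst : ∀ c : k, algebraMap K' F (algebraMap k K' c)
      = algebraMap (RatFunc k) F (algebraMap k (RatFunc k) c) := by
    intro c
    rw [h, hσc]
  have hsm : ∀ (τ : F ≃ₐ[K'] F) (A : ValuationSubring F), e τ • A = τ • A := by
    intro τ A
    ext y
    rw [ValuationSubring.mem_smul_pointwise_iff_exists,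
      ValuationSubring.mem_smul_pointwise_iff_exists]
    constructor
    · rintro ⟨s, hs, rfl⟩
      exact ⟨s, hs, (he τ s).symm⟩
    · rintro ⟨s, hs, rfl⟩
      exact ⟨s, hs, he τ s⟩
  have hcomap : ∀ A : ValuationSubring F,
      (∀ c : k, algebraMap (RatFunc k) F (algebraMap k (RatFunc k) c) ∈ A) → tX k F ∉ A →
      A.comap (algebraMap K' F) = x := by
    intro A hAk hX
    ext f
    rw [ValuationSubring.mem_comap, h, hx]
    exact (mem_place_iff (k := k) A hAk hX (σ f)).1
  refine ⟨hfd, hgal, ρ.comp e.toMonoidHom, hρ.comp e.surjective, ?_, ?_⟩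
  · intro A hA hAk hAx τ hτ
    have hAk' : ∀ c : k, algebraMap (RatFunc k) F (algebraMap k (RatFunc k) c) ∈ A := by
      intro c
      rw [← hcst]
      exact hAk c
    have hX : tX k F ∈ A := by
      by_contra hX
      exact hAx (hcomap A hAk' hX)
    exact h1 A hA hAk' hX (e τ) (by rw [hsm]; exact hτ)
  · obtain ⟨A, hA, hAk, hX, hP⟩ := h2
    refine ⟨A, hA, fun c => by rw [hcst]; exact hAk c, hcomap A hAk hX, fun g => ?_⟩
    rw [hP]
    constructor
    · rintro ⟨τ, hτ, rfl⟩
      refine ⟨e.symm τ, ?_, ?_⟩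
      · rw [← hsm, e.apply_symm_apply]
        exact hτ
      · simp
    · rintro ⟨τ, hτ, rfl⟩
      exact ⟨e τ, by rw [hsm]; exact hτ, rfl⟩

theorem inertia_top {k K L : Type} [Field k] [IsAlgClosed k] [Field K] [Field L] [Algebra k K]
    [Algebra K L] [Algebra k L] [IsScalarTower k K L] (hF : FF k L) (A : ValuationSubring L)
    (hA : IsPlace k A) : A.inertiaSubgroup K = ⊤ := by
  rw [eq_top_iff]
  intro σ _
  rw [ValuationSubring.inertiaSubgroup, MonoidHom.mem_ker]
  ext r
  obtain ⟨a, rfl⟩ := IsLocalRing.residue_surjective r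
  obtain ⟨c, hc⟩ := residue hF A hA a.1 a.2
  let c' : A := ⟨algebraMap k L c, hA.2 c⟩
  have hac : IsLocalRing.residue A a = IsLocalRing.residue A c' := by
    rw [← sub_eq_zero, ← map_sub, IsLocalRing.residue_eq_zero_iff]
    have : ((a - c' : A) : L) ∈ A.nonunits := hc
    exact (ValuationSubring.coe_mem_nonunits_iff).mp this
  have hσc : σ • c' = c' := by
    apply Subtype.ext
    change (σ : L ≃ₐ[K] L) (algebraMap k L c) = algebraMap k L c
    rw [IsScalarTower.algebraMap_apply k K L]
    exact AlgEquiv.commutes _ _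
  change σ • IsLocalRing.residue A a = IsLocalRing.residue A a
  rw [hac, ← IsLocalRing.ResidueField.residue_smul, hσc]

theorem inertia_of_top {K L : Type} [Field K] [Field L] [Algebra K L] :
    (⊤ : ValuationSubring L).inertiaSubgroup K = ⊥ := by
  rw [eq_bot_iff]
  intro σ hσ
  rw [ValuationSubring.inertiaSubgroup, MonoidHom.mem_ker] at hσ
  rw [Subgroup.mem_bot]
  apply Subtype.ext
  ext y
  let a : (⊤ : ValuationSubring L) := ⟨y, trivial⟩
  have h1 : σ • IsLocalRing.residue _ a = IsLocalRing.residue _ a := by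
    have := DFunLike.congr_fun hσ (IsLocalRing.residue _ a)
    exact this
  rw [← IsLocalRing.ResidueField.residue_smul, ← sub_eq_zero, ← map_sub,
    IsLocalRing.residue_eq_zero_iff] at h1
  have h2 : ((σ • a - a : (⊤ : ValuationSubring L)) : L) ∈ (⊤ : ValuationSubring L).nonunits :=
    ValuationSubring.coe_mem_nonunits_iff.mpr h1
  rw [ValuationSubring.mem_nonunits_iff_or] at h2
  rcases h2 with h2 | h2
  · have h3 : (σ : L ≃ₐ[K] L) y - y = 0 := h2
    exact sub_eq_zero.mp h3
  · exact absurd trivial h2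

theorem comap_smul {K F : Type} [Field K] [Field F] [Algebra K F] (L : IntermediateField K F)
    [Normal K L] (γ : F ≃ₐ[K] F) (B : ValuationSubring F) :
    (γ • B).comap (algebraMap L F)
      = (AlgEquiv.restrictNormalHom L γ) • (B.comap (algebraMap L F)) := by
  ext y
  rw [ValuationSubring.mem_comap, ValuationSubring.mem_pointwise_smul_iff_inv_smul_mem,
    ValuationSubring.mem_pointwise_smul_iff_inv_smul_mem, ValuationSubring.mem_comap, ← map_inv]
  have : algebraMap L F ((AlgEquiv.restrictNormalHom L γ⁻¹) • y) = γ⁻¹ • algebraMap L F y :=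
    AlgEquiv.restrictNormal_commutes γ⁻¹ L y
  rw [this]

theorem lift_stab {k : Type} [Field k] [IsAlgClosed k] {K F : Type} [Field K] [Field F]
    [Algebra k K] [Algebra K F] [Algebra k F] [IsScalarTower k K F] [FiniteDimensional K F]
    [IsGalois K F] (hF : FF k F) (L : IntermediateField K F) [Normal K L]
    (B : ValuationSubring F) (hB : IsPlace k B) (τ : L ≃ₐ[K] L)
    (hτ : τ • (B.comap (algebraMap L F)) = B.comap (algebraMap L F)) :
    ∃ γ : F ≃ₐ[K] F, γ • B = B ∧ AlgEquiv.restrictNormalHom L γ = τ := by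
  obtain ⟨γ, hγ⟩ := AlgEquiv.restrictNormalHom_surjective (F := K) (K₁ := L) F τ
  have hγk : ∀ c : k, γ (algebraMap k F c) = algebraMap k F c := by
    intro c
    rw [IsScalarTower.algebraMap_apply k K F]
    exact γ.commutes _
  have hp : IsPlace k (γ • B) := by
    refine ⟨fun h => hB.1 ?_, fun c => ?_⟩
    · rw [eq_top_iff]
      intro y _
      have : γ • y ∈ γ • B := by
        rw [h]
        trivial
      exact (ValuationSubring.smul_mem_pointwise_smul_iff).mp this
    · rw [ValuationSubring.mem_smul_pointwise_iff_exists]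
      exact ⟨_, hB.2 c, hγk c⟩
  have hcm : (γ • B).comap (algebraMap L F) = B.comap (algebraMap L F) := by
    rw [comap_smul, hγ, hτ]
  have : IsScalarTower k L F := IsScalarTower.of_algebraMap_eq fun c => rfl
  obtain ⟨σ, hσ⟩ := places_transitive (k := k) (M := L) hF (γ • B) B hp hB hcm
  refine ⟨(σ.restrictScalars K) * γ, ?_, ?_⟩
  · rw [mul_smul]
    exact hσ
  · rw [map_mul, hγ]
    have : AlgEquiv.restrictNormalHom L (σ.restrictScalars K) = 1 := by
      ext y
      have h1 : algebraMap L F ((AlgEquiv.restrictNormalHom L (σ.restrictScalars K)) y)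
          = (σ.restrictScalars K) (algebraMap L F y) :=
        AlgEquiv.restrictNormal_commutes _ L y
      have h2 : (σ.restrictScalars K) (algebraMap L F y) = algebraMap L F y := σ.commutes y
      rw [h2] at h1
      exact h1
    rw [this, one_mul]

end L1Aux

open L1Aux

theorem realizable_of_realAct {k : Type} [Field k] [IsAlgClosed k] {G : Type} [Group G] [Finite G]
    (P : Subgroup G) (h : RealAct k P) (x : ValuationSubring (RatFunc k)) (hx : x ≠ ⊤)
    (hxk : ∀ c : k, algebraMap k (RatFunc k) c ∈ x) :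
    Realizable k G (fun _ : Fin 1 => P) (fun _ => x) := by
  obtain ⟨σ, hσ⟩ := coord x hx hxk
  obtain ⟨F, instF, instA, hfd, hgal, ρ, hρ, h1, h2⟩ := h
  have ht := @transfer k (RatFunc k) F G _ _ _ _ _ instA
    ((algebraMap (RatFunc k) F).comp (σ : RatFunc k →+* RatFunc k)).toAlgebra hfd hgal
    σ.toRingEquiv (fun c => σ.commutes c) (fun f => rfl) x hσ P ρ hρ h1 h2
  clear h1 h2 hρ ρ hgal hfd
  revert ht
  generalize ((algebraMap (RatFunc k) F).comp (σ : RatFunc k →+* RatFunc k)).toAlgebra = instB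
  clear instA hσ σ
  rintro ⟨hfd, hgal, ρ, hρ, h1, B, hB, hBk, hBx, hBP⟩
  let _ : Algebra k F := ((algebraMap (RatFunc k) F).comp (algebraMap k (RatFunc k))).toAlgebra
  have : IsScalarTower k (RatFunc k) F := IsScalarTower.of_algebraMap_eq' rfl
  have hFF : FF k F := ff_of_algebraic k F
  let L := IntermediateField.fixedField ρ.ker
  let φ : G ≃* (L ≃ₐ[RatFunc k] L) :=
    (QuotientGroup.quotientKerEquivOfSurjective ρ hρ).symm.trans
      (IsGalois.normalAutEquivQuotient ρ.ker)
  have hφ : ∀ γ, φ (ρ γ) = AlgEquiv.restrictNormalHom L γ := by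
    intro γ
    change (IsGalois.normalAutEquivQuotient ρ.ker)
      ((QuotientGroup.quotientKerEquivOfSurjective ρ hρ).symm (ρ γ)) = _
    have : (QuotientGroup.quotientKerEquivOfSurjective ρ hρ).symm (ρ γ) = (γ : _ ⧸ ρ.ker) := by
      rw [MulEquiv.symm_apply_eq]
      rfl
    rw [this]
    rfl
  have hLL : FF k L := ff_of_algebraic k L
  have : IsScalarTower k L F := IsScalarTower.of_algebraMap_eq fun c => rfl
  refine ⟨L, inferInstance, inferInstance, inferInstance, inferInstance, φ, ?_, ?_⟩
  · intro A hAk hAx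
    by_cases hA : A = ⊤
    · rw [hA]
      exact inertia_of_top
    · obtain ⟨B', hB', hBA⟩ := exists_place_extension (k := k) (L := L) (Ω := F) A ⟨hA, hAk⟩
      rw [eq_bot_iff]
      rintro ⟨τ, hτ⟩ -
      rw [Subgroup.mem_bot]
      apply Subtype.ext
      change τ = 1
      have hτ' : τ • A = A := hτ
      rw [← hBA] at hτ'
      obtain ⟨γ, hγ, hγτ⟩ := lift_stab (k := k) hFF L B' hB' τ hτ'
      have hne : B'.comap (algebraMap (RatFunc k) F) ≠ x := by
        intro hh
        apply hAx
        refine ⟨0, ?_⟩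
        rw [← hBA]
        rw [← hh]
        rfl
      have := h1 B' hB'.1 hB'.2 hne γ hγ
      rw [← hγτ, ← hφ, this, map_one]
  · intro _
    have hAx : (B.comap (algebraMap L F)).comap (algebraMap (RatFunc k) L) = x := by
      rw [← hBx]
      rfl
    have hAp : IsPlace k (B.comap (algebraMap L F)) := by
      refine ⟨fun hh => hx ?_, fun c => hBk c⟩
      rw [← hAx, hh, eq_top_iff]
      intro y _
      trivial
    refine ⟨B.comap (algebraMap L F), hAx, ?_⟩
    rw [inertia_top (k := k) hLL _ hAp]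
    ext τ
    simp only [Subgroup.mem_map, Subgroup.mem_top, true_and, Subgroup.coe_subtype, Subtype.exists,
      exists_prop, exists_eq_right]
    constructor
    · intro hτ
      obtain ⟨γ, hγ, hγτ⟩ := lift_stab (k := k) hFF L B ⟨hB, hBk⟩ τ hτ
      refine ⟨ρ γ, (hBP _).mpr ⟨γ, hγ, rfl⟩, ?_⟩
      rw [← hγτ]
      exact hφ γ
    · rintro ⟨g, hg, rfl⟩
      obtain ⟨γ, hγ, rfl⟩ := (hBP g).mp hg
      change φ (ρ γ) • (B.comap (algebraMap L F)) = B.comap (algebraMap L F)
      rw [hφ, ← comap_smul, hγ]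

end Pool.Agent.Helper54.PW
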