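import Pool.Agent.Helper54.PW.Defs

set_option autoImplicit false
open scoped Pointwise

namespace Pool.Agent.Helper54.PW

namespace LangAux

open Polynomial

/-- the recursion for the coefficients. -/
noncomputable def Q {k : Type} [Field k] (p : ℕ) (l : ℕ → k) : ℕ → k[X]
  | 0 => C (l 0) * X ^ p - 1
  | i + 1 => (Q p l i) ^ p + C (l (i + 1)) * X ^ p

theorem derivative_Q {k : Type} [Field k] (p : ℕ) [CharP k p] (l : ℕ → k) (i : ℕ) :
    derivative (Q p l i) = 0 := by
  have hX : derivative ((X : k[X]) ^ p) = 0 := by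
    rw [derivative_X_pow, CharP.cast_eq_zero]
    simp
  cases i with
  | zero => simp [Q, hX]
  | succ i =>
    have : derivative ((Q p l i) ^ p) = 0 := by
      rw [derivative_pow, CharP.cast_eq_zero]
      simp
    simp [Q, hX, this]

theorem exists_mem_span {k M : Type} [Field k] [AddCommGroup M] [Module k M] [Module.Finite k M]
    (v : ℕ → M) : ∃ n : ℕ, ∃ l : ℕ → k, v n = ∑ i ∈ Finset.range n, l i • v i := by
  let S : ℕ →o Submodule k M :=
    ⟨fun n => Submodule.span k (Set.range (fun i : Fin n => v i)), by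
      intro a b hab
      apply Submodule.span_mono
      rintro _ ⟨i, rfl⟩
      exact ⟨⟨i, lt_of_lt_of_le i.2 hab⟩, rfl⟩⟩
  obtain ⟨n, hn⟩ := monotone_stabilizes_iff_noetherian.mpr (inferInstance : IsNoetherian k M) S
  have h1 : v n ∈ S (n + 1) := Submodule.subset_span ⟨⟨n, Nat.lt_succ_self n⟩, rfl⟩
  rw [← hn (n + 1) (Nat.le_succ n)] at h1
  obtain ⟨c, hc⟩ := (Submodule.mem_span_range_iff_exists_fun k).mp h1
  refine ⟨n, fun i => if h : i < n then c ⟨i, h⟩ else 0, ?_⟩
  rw [← hc, Finset.sum_range]
  apply Finset.sum_congr rfl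
  intro i _
  simp

end LangAux

open LangAux Polynomial in
theorem lang_surj (p : ℕ) [Fact p.Prime] {k : Type} [Field k] [IsAlgClosed k] [CharP k p]
    {M : Type} [AddCommGroup M] [Module k M] [Module.Finite k M] (φ : M →+ M)
    (hφ : ∀ (c : k) (x : M), φ (c • x) = c ^ p • φ x) (y : M) : ∃ x, φ x - x = y := by
  let v : ℕ → M := fun i => (φ^[i]) y
  have hv : ∀ i, v (i + 1) = φ (v i) := fun i => Function.iterate_succ_apply' _ _ _
  obtain ⟨n, l, hn⟩ := exists_mem_span (k := k) v
  cases n with
  | zero =>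
    have h0 : v 0 = 0 := by simpa using hn
    have h1 : y = 0 := h0
    exact ⟨0, by simp [h1]⟩
  | succ m =>
    have hdeg : (Q p l m - X : k[X]).degree ≠ 0 := by
      intro h
      have h1 := eq_C_of_degree_eq_zero h
      have h2 : derivative (Q p l m - X : k[X]) = 0 := by
        rw [h1]
        exact derivative_C
      rw [derivative_sub, derivative_Q, derivative_X] at h2
      simp at h2
    obtain ⟨c, hc⟩ := IsAlgClosed.exists_root _ hdeg
    have hc' : (Q p l m).eval c = c := by
      have : (Q p l m - X : k[X]).eval c = 0 := hc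
      rw [eval_sub, eval_X] at this
      exact sub_eq_zero.mp this
    let d : ℕ → k := fun i => (Q p l i).eval c
    have hd0 : d 0 = l 0 * c ^ p - 1 := by simp [d, Q]
    have hds : ∀ i, d (i + 1) = d i ^ p + l (i + 1) * c ^ p := by
      intro i
      simp [d, Q]
    have hdm : d m = c := hc'
    refine ⟨∑ i ∈ Finset.range (m + 1), d i • v i, ?_⟩
    rw [map_sum]
    simp only [hφ, ← hv]
    rw [Finset.sum_range_succ, hn, Finset.sum_range_succ' (fun i => l i • v i),
      Finset.sum_range_succ' (fun i => d i • v i), hdm, smul_add, Finset.smul_sum]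
    have hy : v 0 = y := rfl
    have key : ∀ i, d i ^ p • v (i + 1) + c ^ p • l (i + 1) • v (i + 1) - d (i + 1) • v (i + 1)
        = 0 := by
      intro i
      rw [smul_smul, ← add_smul, ← sub_smul, hds]
      have : d i ^ p + c ^ p * l (i + 1) - (d i ^ p + l (i + 1) * c ^ p) = 0 := by ring
      rw [this, zero_smul]
    have h0 : c ^ p • l 0 • v 0 - d 0 • v 0 = y := by
      rw [smul_smul, ← sub_smul, hd0]
      have : c ^ p * l 0 - (l 0 * c ^ p - 1) = 1 := by ring
      rw [this, one_smul, hy]
    have hsum : ∑ i ∈ Finset.range m, d i ^ p • v (i + 1)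
        + ∑ i ∈ Finset.range m, c ^ p • l (i + 1) • v (i + 1)
        - ∑ i ∈ Finset.range m, d (i + 1) • v (i + 1) = 0 := by
      rw [← Finset.sum_add_distrib, ← Finset.sum_sub_distrib]
      exact Finset.sum_eq_zero fun i _ => key i
    calc _ = (∑ i ∈ Finset.range m, d i ^ p • v (i + 1)
        + ∑ i ∈ Finset.range m, c ^ p • l (i + 1) • v (i + 1)
        - ∑ i ∈ Finset.range m, d (i + 1) • v (i + 1)) + (c ^ p • l 0 • v 0 - d 0 • v 0) := by
          abel
      _ = y := by rw [hsum, h0, zero_add]

end Pool.Agent.Helper54.PW
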