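import Pool.Agent.Helper54.PW.Basic
import Pool.Agent.Helper18.PW.Places1
import Pool.Agent.Helper73.PW.Lang
import Pool.Agent.Helper51.PW.Degree

/-!
# Global surjectivity (module PW-G3)
-/

set_option autoImplicit false
open scoped Pointwise

namespace Pool.Agent.Helper54.PW

namespace GTAux

open Polynomial

/-- partial fraction at `X`-adic order: `f = P + ∑_{i<N} c_i X^(-(i+1)) + X^(-N) h` -/
theorem decomp {k : Type} [Field k] (f : RatFunc k) (N : ℕ) :
    ∃ (P : k[X]) (c : ℕ → k) (h : RatFunc k), (h = 0 ∨ h.intDegree < 0) ∧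
      f = algebraMap k[X] (RatFunc k) P
        + ∑ i ∈ Finset.range N, algebraMap k (RatFunc k) (c i) * (RatFunc.X)⁻¹ ^ (i + 1)
        + (RatFunc.X)⁻¹ ^ N * h := by
  have hX0 : (RatFunc.X : RatFunc k) ≠ 0 := RatFunc.X_ne_zero
  -- first the case `N = 0`
  have key : ∀ f : RatFunc k, ∃ (Q : k[X]) (h : RatFunc k), (h = 0 ∨ h.intDegree < 0) ∧
      f = algebraMap k[X] (RatFunc k) Q + h := by
    intro f
    let q := f.num /ₘ f.denom
    let r := f.num %ₘ f.denom
    have hmon : f.denom.Monic := RatFunc.monic_denom f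
    have hqr : r + f.denom * q = f.num := modByMonic_add_div _ _
    have hd0 : algebraMap k[X] (RatFunc k) f.denom ≠ 0 :=
      RatFunc.algebraMap_ne_zero (RatFunc.denom_ne_zero f)
    refine ⟨q, algebraMap k[X] (RatFunc k) r / algebraMap k[X] (RatFunc k) f.denom, ?_, ?_⟩
    · by_cases hr : r = 0
      · left
        rw [hr]
        simp
      · right
        rw [RatFunc.intDegree_div (RatFunc.algebraMap_ne_zero hr) hd0,
          RatFunc.intDegree_polynomial, RatFunc.intDegree_polynomial]
        have h1 : r.degree < f.denom.degree := degree_modByMonic_lt _ hmon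
        have h2 : r.natDegree < f.denom.natDegree := natDegree_lt_natDegree hr h1
        omega
    · have h3 : f = algebraMap k[X] (RatFunc k) f.num / algebraMap k[X] (RatFunc k) f.denom :=
        (RatFunc.num_div_denom f).symm
      conv_lhs => rw [h3, ← hqr]
      rw [map_add, map_mul, add_div, mul_div_cancel_left₀ _ hd0]
      ring
  obtain ⟨Q, h, hh, hQ⟩ := key (RatFunc.X ^ N * f)
  refine ⟨Q /ₘ (X ^ N), fun i => Q.coeff (N - 1 - i), h, hh, ?_⟩
  have hf : f = (RatFunc.X)⁻¹ ^ N * (algebraMap k[X] (RatFunc k) Q + h) := by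
    rw [← hQ, ← mul_assoc, ← mul_pow, inv_mul_cancel₀ hX0, one_pow, one_mul]
  have hdiv : (Q %ₘ (X ^ N)) + X ^ N * (Q /ₘ (X ^ N)) = Q := modByMonic_add_div _ _
  have hmod : Q %ₘ (X ^ N) = ∑ i ∈ Finset.range N, C (Q.coeff i) * X ^ i := by
    ext j
    rw [finsetSum_coeff]
    simp only [coeff_C_mul, coeff_X_pow, mul_ite, mul_one, mul_zero]
    rw [Finset.sum_ite_eq]
    by_cases hj : j < N
    · rw [if_pos (Finset.mem_range.mpr hj)]
      have := congrArg (fun P : k[X] => P.coeff j) hdiv
      simp only [coeff_add, coeff_X_pow_mul'] at this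
      rw [if_neg (by omega), add_zero] at this
      exact this
    · rw [if_neg (by simpa using hj)]
      apply coeff_eq_zero_of_degree_lt
      refine lt_of_lt_of_le (degree_modByMonic_lt _ (monic_X_pow N)) ?_
      rw [degree_X_pow]
      exact_mod_cast not_lt.mp hj
  have hQ2 : algebraMap k[X] (RatFunc k) Q
      = ∑ i ∈ Finset.range N, algebraMap k (RatFunc k) (Q.coeff i) * RatFunc.X ^ i
        + RatFunc.X ^ N * algebraMap k[X] (RatFunc k) (Q /ₘ (X ^ N)) := by
    conv_lhs => rw [← hdiv, hmod]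
    rw [map_add, map_mul, map_sum, map_pow, RatFunc.algebraMap_X]
    congr 1
    apply Finset.sum_congr rfl
    intro i _
    rw [map_mul, map_pow, RatFunc.algebraMap_X]
    rfl
  rw [hf, hQ2]
  have e1 : (RatFunc.X)⁻¹ ^ N * (∑ i ∈ Finset.range N,
      algebraMap k (RatFunc k) (Q.coeff i) * RatFunc.X ^ i)
      = ∑ i ∈ Finset.range N, algebraMap k (RatFunc k) (Q.coeff (N - 1 - i))
        * (RatFunc.X)⁻¹ ^ (i + 1) := by
    rw [Finset.mul_sum, ← Finset.sum_range_reflect]
    apply Finset.sum_congr rfl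
    intro i hi
    rw [Finset.mem_range] at hi
    have e2 : (RatFunc.X : RatFunc k)⁻¹ ^ N
        = (RatFunc.X)⁻¹ ^ (i + 1) * (RatFunc.X)⁻¹ ^ (N - 1 - i) := by
      rw [← pow_add]
      congr 1
      omega
    rw [e2, inv_pow _ (N - 1 - i)]
    have e3 : (RatFunc.X : RatFunc k) ^ (N - 1 - i) ≠ 0 := pow_ne_zero _ hX0
    field_simp
  have e4 : (RatFunc.X : RatFunc k)⁻¹ ^ N * (RatFunc.X ^ N
      * algebraMap k[X] (RatFunc k) (Q /ₘ (X ^ N))) = algebraMap k[X] (RatFunc k) (Q /ₘ (X ^ N)) := by
    rw [← mul_assoc, ← mul_pow, inv_mul_cancel₀ hX0, one_pow, one_mul]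
  rw [mul_add, mul_add, e1, e4]
  ring

section
variable {k : Type} [Field k] {p : ℕ} [Fact p.Prime] {L : Type} [Field L] [Algebra k L]
  [Algebra (RatFunc k) L] [IsScalarTower k (RatFunc k) L]
  {G : Type} [Group G] {V : Subgroup G} [V.Normal] (act : G →* (L ≃ₐ[RatFunc k] L))

/-- the invariants, as a subspace over `k(X)` -/
def invK : Submodule (RatFunc k) (TT p V L) where
  carrier := {y | ∀ g, st p g (act g : L →+* L) y = y}
  add_mem' := by
    intro a b ha hb g
    rw [st_add, ha g, hb g]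
  zero_mem' := by
    intro g
    exact (stHom p g _).map_zero
  smul_mem' := by
    intro c y hy g
    refine AddMonoidHom.ext fun χ => ?_
    have h1 := DFunLike.congr_fun (hy g) χ
    rw [st_apply] at h1 ⊢
    rw [AddMonoidHom.smul_apply, AddMonoidHom.smul_apply]
    conv_rhs => rw [← h1]
    exact map_smul (act g) c _

/-- the invariants, as a subspace over `k` -/
def invk : Submodule k (TT p V L) where
  carrier := {y | ∀ g, st p g (act g : L →+* L) y = y}
  add_mem' := (invK act).add_mem'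
  zero_mem' := (invK act).zero_mem'
  smul_mem' := by
    intro c y hy
    have h1 := (invK act).smul_mem' (algebraMap k (RatFunc k) c) hy
    have h2 : algebraMap k (RatFunc k) c • y = c • y := by
      refine AddMonoidHom.ext fun χ => ?_
      rw [AddMonoidHom.smul_apply, AddMonoidHom.smul_apply]
      exact algebraMap_smul _ _ _
    rw [h2] at h1
    exact h1

theorem pk_integral (q : k[X]) : (pk k L).IsIntegralElem (pk k L q) := by
  have : pk k L q ∈ intSub k L := by
    let _ := (pk k L).toAlgebra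
    exact (isIntegral_algebraMap (R := k[X]) (A := L) (x := q))
  exact this

theorem const_integral (c : k) : (pk k L).IsIntegralElem (algebraMap k L c) := by
  have h := pk_integral (k := k) (L := L) (C c)
  have : pk k L (C c) = algebraMap k L c := by
    rw [IsScalarTower.algebraMap_apply k (RatFunc k) L]
    rfl
  rw [this] at h
  exact h

/-- integral invariants plus invariants with values in the maximal ideal -/
def small (A : ValuationSubring L) (hk : ∀ c : k, algebraMap k L c ∈ A) :
    Submodule k (TT p V L) where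
  carrier := {y | ∃ m δ : TT p V L, (∀ g, st p g (act g : L →+* L) m = m) ∧
    (∀ χ, (pk k L).IsIntegralElem (m χ)) ∧ (∀ g, st p g (act g : L →+* L) δ = δ) ∧
    (∀ χ, δ χ ∈ A.nonunits) ∧ y = m + δ}
  add_mem' := by
    rintro _ _ ⟨m, δ, h1, h2, h3, h4, rfl⟩ ⟨m', δ', h1', h2', h3', h4', rfl⟩
    refine ⟨m + m', δ + δ', fun g => by rw [st_add, h1, h1'], fun χ => ?_,
      fun g => by rw [st_add, h3, h3'], fun χ => A.nonunits.add_mem (h4 χ) (h4' χ), by abel⟩
    exact (intSub k L).add_mem (h2 χ) (h2' χ)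
  zero_mem' := by
    refine ⟨0, 0, fun g => (stHom p g _).map_zero, fun χ => ?_, fun g => (stHom p g _).map_zero,
      fun χ => A.nonunits.zero_mem, by simp⟩
    exact (intSub k L).zero_mem
  smul_mem' := by
    rintro c _ ⟨m, δ, h1, h2, h3, h4, rfl⟩
    refine ⟨c • m, c • δ, (invk act).smul_mem' c h1, fun χ => ?_, (invk act).smul_mem' c h3,
      fun χ => ?_, by rw [smul_add]⟩
    · rw [AddMonoidHom.smul_apply, Algebra.smul_def]
      exact (intSub k L).mul_mem (const_integral c) (h2 χ)
    · rw [AddMonoidHom.smul_apply, Algebra.smul_def, ValuationSubring.mem_nonunits_iff, map_mul]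
      have h5 := (ValuationSubring.valuation_le_one_iff A _).mpr (hk c)
      have h6 := (ValuationSubring.mem_nonunits_iff A).mp (h4 χ)
      exact lt_of_le_of_lt (mul_le_of_le_one_left' h5) h6

variable [CharP k p] [CharP L p]

/-- the Frobenius on invariants -/
def frT : invk (p := p) (V := V) act →ₛₗ[frobenius k p] invk (p := p) (V := V) act where
  toFun f := ⟨((frobenius L p : L →+* L) : L →+ L).comp f.1, by
    intro g
    refine AddMonoidHom.ext fun χ => ?_
    have h1 := DFunLike.congr_fun (f.2 g) χ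
    rw [st_apply] at h1 ⊢
    change (act g : L →+* L) ((f.1 (cj p g χ)) ^ p) = (f.1 χ) ^ p
    rw [map_pow, h1]⟩
  map_add' f g := by
    apply Subtype.ext
    refine AddMonoidHom.ext fun χ => ?_
    exact map_add (frobenius L p) _ _
  map_smul' c f := by
    apply Subtype.ext
    refine AddMonoidHom.ext fun χ => ?_
    change (c • f.1 χ) ^ p = (c ^ p) • ((f.1 χ) ^ p)
    rw [Algebra.smul_def, Algebra.smul_def, mul_pow, map_pow]

theorem frT_small (A : ValuationSubring L) (hk : ∀ c : k, algebraMap k L c ∈ A) :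
    (small (p := p) (V := V) act A hk).comap (invk act).subtype ≤
      ((small (p := p) (V := V) act A hk).comap (invk act).subtype).comap (frT act) := by
  rintro f ⟨m, δ, h1, h2, h3, h4, hf⟩
  refine ⟨(frT act ⟨m, h1⟩).1, (frT act ⟨δ, h3⟩).1, (frT act ⟨m, h1⟩).2, fun χ => ?_,
    (frT act ⟨δ, h3⟩).2, fun χ => ?_, ?_⟩
  · exact (intSub k L).pow_mem (h2 χ) p
  · change (δ χ) ^ p ∈ A.nonunits
    rw [ValuationSubring.mem_nonunits_iff, map_pow]
    exact pow_lt_one' ((ValuationSubring.mem_nonunits_iff A).mp (h4 χ)) (Fact.out : p.Prime).ne_zero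
  · have h5 : f = ⟨m, h1⟩ + ⟨δ, h3⟩ := Subtype.ext hf
    rw [h5, map_add]
    rfl

end

section fin
variable {k : Type} [Field k] [IsAlgClosed k] {p : ℕ} [Fact p.Prime] {L : Type} [Field L]
  [Algebra k L] [Algebra (RatFunc k) L] [IsScalarTower k (RatFunc k) L]
  [FiniteDimensional (RatFunc k) L]
  {G : Type} [Group G] [Finite G] {V : Subgroup G} [V.Normal] (act : G →* (L ≃ₐ[RatFunc k] L))

instance finDl : Finite (Dl p V) := by
  have : Finite (Additive V) := inferInstanceAs (Finite V)
  exact Finite.of_injective (fun f : Dl p V => (f : Additive V → ZMod p)) DFunLike.coe_injective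

instance finTT : FiniteDimensional (RatFunc k) (TT p V L) := by
  let f : TT p V L →ₗ[RatFunc k] (Dl p V → L) :=
    { toFun := fun f χ => f χ
      map_add' := fun _ _ => rfl
      map_smul' := fun _ _ => rfl }
  exact Module.Finite.of_injective f (fun a b h => DFunLike.coe_injective h)

/-- clearing denominators -/
theorem clear_den (e : TT p V L) :
    ∃ q : k[X], q ≠ 0 ∧ ∀ χ, (pk k L).IsIntegralElem (pk k L q * e χ) := by
  classical
  let _ : Algebra k[X] L := (pk k L).toAlgebra
  have _ : IsScalarTower k[X] (RatFunc k) L := IsScalarTower.of_algebraMap_eq' rfl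
  have _ : Algebra.IsAlgebraic k[X] (RatFunc k) :=
    IsLocalization.isAlgebraic (RatFunc k) (nonZeroDivisors k[X])
  have _ : Algebra.IsAlgebraic k[X] L :=
    Algebra.IsAlgebraic.trans k[X] (RatFunc k) L
  have h : ∀ χ : Dl p V, ∃ q : k[X], q ≠ 0 ∧ IsIntegral k[X] (q • e χ) := fun χ =>
    IsAlgebraic.exists_integral_multiple (Algebra.IsAlgebraic.isAlgebraic (e χ))
  choose q hq0 hq using h
  cases nonempty_fintype (Dl p V)
  refine ⟨∏ χ, q χ, Finset.prod_ne_zero_iff.mpr fun χ _ => hq0 χ, fun χ => ?_⟩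
  have h1 : pk k L (∏ χ, q χ) * e χ = (∏ χ' ∈ Finset.univ.erase χ, q χ') • (q χ • e χ) := by
    rw [← Finset.prod_erase_mul _ _ (Finset.mem_univ χ), mul_comm, Algebra.smul_def,
      Algebra.smul_def, map_mul]
    change e χ * (pk k L _ * pk k L (q χ)) = pk k L _ * (pk k L (q χ) * e χ)
    ring
  rw [h1]
  exact IsIntegral.smul _ (hq χ)

end fin

end GTAux

open GTAux Polynomial in
theorem fin_quot {k : Type} [Field k] [IsAlgClosed k] {p : ℕ} [Fact p.Prime] {L : Type} [Field L]
    [Algebra k L] [Algebra (RatFunc k) L] [IsScalarTower k (RatFunc k) L]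
    [FiniteDimensional (RatFunc k) L] {G : Type} [Group G] [Finite G] {V : Subgroup G} [V.Normal]
    (act : G →* (L ≃ₐ[RatFunc k] L)) (A : ValuationSubring L) (hA : IsPlace k A)
    (hX : tX k L ∉ A) :
    Module.Finite k (invk (p := p) (V := V) act ⧸
      ((small (p := p) (V := V) act A hA.2).comap (invk act).subtype)) := by
  classical
  let S := (small (p := p) (V := V) act A hA.2).comap (invk act).subtype
  let b := Module.finBasis (RatFunc k) (invK (p := p) (V := V) act)
  let r := Module.finrank (RatFunc k) (invK (p := p) (V := V) act)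
  have hq : ∀ j : Fin r, ∃ q : k[X], q ≠ 0 ∧
      ∀ χ, (pk k L).IsIntegralElem (pk k L q * ((b j : TT p V L)) χ) :=
    fun j => clear_den (b j : TT p V L)
  choose q hq0 hqi using hq
  -- the scaled basis vectors
  let e : Fin r → TT p V L := fun j => algebraMap k[X] (RatFunc k) (q j) • (b j : TT p V L)
  have he1 : ∀ j, e j ∈ invK act := fun j => (invK act).smul_mem _ (b j).2
  have heχ : ∀ j χ, e j χ = pk k L (q j) * (b j : TT p V L) χ := by
    intro j χ
    change algebraMap k[X] (RatFunc k) (q j) • ((b j : TT p V L) χ) = _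
    rw [Algebra.smul_def]
    rfl
  have he2 : ∀ j χ, (pk k L).IsIntegralElem (e j χ) := by
    intro j χ
    rw [heχ]
    exact hqi j χ
  have hk : ∀ c : k, algebraMap k L c ∈ A := hA.2
  have htX0 : tX k L ≠ 0 := by
    intro h
    rw [h] at hX
    exact hX A.zero_mem
  have hnu : (tX k L)⁻¹ ∈ A.nonunits := by
    rw [ValuationSubring.inv_mem_nonunits_iff]
    exact Or.inr hX
  have hFF : FF k L := ff_of_algebraic k L
  cases nonempty_fintype (Dl p V)
  have hN : ∃ N : ℕ, ∀ j χ, ((tX k L)⁻¹) ^ N * e j χ ∈ A.nonunits := by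
    have h := fun (j : Fin r) (χ : Dl p V) =>
      arch hFF A hk _ hnu (inv_ne_zero htX0) (e j χ)
    choose N hN using h
    refine ⟨∑ j, ∑ χ, N j χ, fun j χ => hN j χ _ ?_⟩
    calc N j χ ≤ ∑ χ, N j χ := Finset.single_le_sum (f := N j) (fun _ _ => Nat.zero_le _)
          (Finset.mem_univ χ)
      _ ≤ ∑ j, ∑ χ, N j χ := Finset.single_le_sum (f := fun j => ∑ χ, N j χ)
          (fun _ _ => Nat.zero_le _) (Finset.mem_univ j)
  obtain ⟨N, hN⟩ := hN
  -- the spanning family
  let w : Fin r × Fin N → invk (p := p) (V := V) act := fun x =>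
    ⟨((RatFunc.X)⁻¹ ^ ((x.2 : ℕ) + 1) : RatFunc k) • e x.1, (invK act).smul_mem _ (he1 x.1)⟩
  rw [Module.finite_def, Submodule.fg_def]
  refine ⟨Set.range (fun x => (Submodule.Quotient.mk (w x) : _ ⧸ S)), Set.finite_range _, ?_⟩
  rw [eq_top_iff]
  rintro y' -
  obtain ⟨y, rfl⟩ := Submodule.Quotient.mk_surjective _ y'
  -- coordinates
  let y1 : invK (p := p) (V := V) act := ⟨y.1, y.2⟩
  have hy1 : y.1 = ∑ j, ((b.repr y1 j) / algebraMap k[X] (RatFunc k) (q j)) • e j := by
    have h1 := congrArg (Subtype.val) (b.sum_repr y1)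
    have h2 : (y1 : TT p V L) = y.1 := rfl
    rw [← h2, ← h1]
    rw [AddSubmonoidClass.coe_finsetSum]
    apply Finset.sum_congr rfl
    intro j _
    have h3 : algebraMap k[X] (RatFunc k) (q j) ≠ 0 := RatFunc.algebraMap_ne_zero (hq0 j)
    change (b.repr y1 j) • (b j : TT p V L) = _
    rw [smul_smul, div_mul_cancel₀ _ h3]
  have hdec := fun j => decomp ((b.repr y1 j) / algebraMap k[X] (RatFunc k) (q j)) N
  choose P c h hh hfe using hdec
  -- the small part
  let m : TT p V L := ∑ j, (algebraMap k[X] (RatFunc k) (P j)) • e j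
  let δ : TT p V L := ∑ j, ((RatFunc.X)⁻¹ ^ N * h j) • e j
  have hm1 : m ∈ invK act := Submodule.sum_mem _ fun j _ => (invK act).smul_mem _ (he1 j)
  have hδ1 : δ ∈ invK act := Submodule.sum_mem _ fun j _ => (invK act).smul_mem _ (he1 j)
  have hm2 : ∀ χ, (pk k L).IsIntegralElem (m χ) := by
    intro χ
    have : m χ = ∑ j, pk k L (P j) * e j χ := by
      change (∑ j, (algebraMap k[X] (RatFunc k) (P j)) • e j) χ = _
      rw [AddMonoidHom.finsetSum_apply]
      apply Finset.sum_congr rfl
      intro j _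
      rw [AddMonoidHom.smul_apply, Algebra.smul_def]
      rfl
    rw [this]
    exact (intSub k L).sum_mem fun j _ => (intSub k L).mul_mem (pk_integral _) (he2 j χ)
  have hδ2 : ∀ χ, δ χ ∈ A.nonunits := by
    intro χ
    have : δ χ = ∑ j, algebraMap (RatFunc k) L (h j) * (((tX k L)⁻¹) ^ N * e j χ) := by
      change (∑ j, ((RatFunc.X)⁻¹ ^ N * h j) • e j) χ = _
      rw [AddMonoidHom.finsetSum_apply]
      apply Finset.sum_congr rfl
      intro j _
      rw [AddMonoidHom.smul_apply, Algebra.smul_def, map_mul, map_pow, map_inv₀]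
      change ((tX k L)⁻¹ ^ N * _) * _ = _
      ring
    rw [this]
    refine sum_mem fun j _ => ?_
    have h1 : algebraMap (RatFunc k) L (h j) ∈ A.nonunits :=
      (mem_place_iff A hk hX (h j)).2.mpr (hh j)
    exact A.nonunits.mul_mem h1 (hN j χ)
  have hsum : y = ⟨m + δ, (invk act).add_mem hm1 hδ1⟩ + ∑ x : Fin r × Fin N, c x.1 x.2 • w x := by
    apply Subtype.ext
    rw [AddMemClass.coe_add, AddSubmonoidClass.coe_finsetSum]
    change y.1 = (m + δ) + ∑ x : Fin r × Fin N, c x.1 x.2 •
      (((RatFunc.X)⁻¹ ^ ((x.2 : ℕ) + 1) : RatFunc k) • e x.1)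
    rw [hy1, Fintype.sum_prod_type, add_assoc, ← add_assoc]
    change _ = (∑ j, (algebraMap k[X] (RatFunc k) (P j)) • e j)
      + (∑ j, ((RatFunc.X)⁻¹ ^ N * h j) • e j) + _
    rw [← Finset.sum_add_distrib, ← Finset.sum_add_distrib]
    apply Finset.sum_congr rfl
    intro j _
    conv_lhs => rw [hfe j]
    rw [add_smul, add_smul, Finset.sum_range, Finset.sum_smul]
    have h5 : ∀ i : Fin N, (algebraMap k (RatFunc k) (c j i) * (RatFunc.X)⁻¹ ^ ((i : ℕ) + 1)) • e j
        = c j i • (((RatFunc.X)⁻¹ ^ ((i : ℕ) + 1) : RatFunc k) • e j) := by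
      intro i
      refine AddMonoidHom.ext fun χ => ?_
      rw [mul_smul]
      simp only [AddMonoidHom.smul_apply]
      exact algebraMap_smul _ _ _
    rw [Finset.sum_congr rfl fun i _ => h5 i]
    abel
  have hmk : (Submodule.Quotient.mk y : _ ⧸ S)
      = ∑ x : Fin r × Fin N, c x.1 x.2 • (Submodule.Quotient.mk (w x) : _ ⧸ S) := by
    have h6 : (Submodule.Quotient.mk (⟨m + δ, (invk act).add_mem hm1 hδ1⟩ : invk act) : _ ⧸ S)
        = 0 := by
      rw [Submodule.Quotient.mk_eq_zero]
      exact ⟨m, δ, hm1, hm2, hδ1, hδ2, rfl⟩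
    conv_lhs => rw [hsum]
    rw [Submodule.Quotient.mk_add, h6, zero_add]
    exact map_sum S.mkQ _ _
  rw [hmk]
  exact Submodule.sum_mem _ fun x _ => Submodule.smul_mem _ _ (Submodule.subset_span ⟨x, rfl⟩)

section
variable {k : Type} [Field k] [IsAlgClosed k]
variable {p : ℕ} [Fact p.Prime] {L : Type} [Field L] [Algebra k L] [Algebra (RatFunc k) L]
  [IsScalarTower k (RatFunc k) L] [FiniteDimensional (RatFunc k) L] [IsGalois (RatFunc k) L]
  {G : Type} [Group G] [Finite G] {V : Subgroup G} [V.Normal]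
  (act : G →* (L ≃ₐ[RatFunc k] L)) (hact : Function.Surjective act)
  (A : ValuationSubring L) (hA : IsPlace k A)

open GTAux in
include hact hA in
theorem global_T [CharP k p] [CharP L p] (hX : tX k L ∉ A) (y : TT p V L)
    (hy : ∀ g, st p g (act g : L →+* L) y = y) :
    ∃ m n δ : TT p V L, (∀ g, st p g (act g : L →+* L) m = m) ∧
      (∀ χ, (pk k L).IsIntegralElem (m χ)) ∧ (∀ g, st p g (act g : L →+* L) n = n) ∧
      (∀ χ, δ χ ∈ A.nonunits) ∧ y = m + (wp p L).comp n + δ := by
  have _ := hact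
  have hfin := fin_quot (p := p) (V := V) act A hA hX
  let S := (small (p := p) (V := V) act A hA.2).comap (invk act).subtype
  let φ : (invk (p := p) (V := V) act ⧸ S) →ₛₗ[frobenius k p] (invk (p := p) (V := V) act ⧸ S) :=
    S.mapQ S (frT act) (frT_small act A hA.2)
  obtain ⟨x, hx⟩ := lang_surj p φ.toAddMonoidHom
    (fun (c : k) (x : invk (p := p) (V := V) act ⧸ S) => by
      change φ (c • x) = c ^ p • φ x
      rw [map_smulₛₗ, frobenius_def])
    (Submodule.Quotient.mk (⟨y, hy⟩ : invk (p := p) (V := V) act))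
  obtain ⟨n, rfl⟩ := Submodule.Quotient.mk_surjective _ x
  have h1 : (Submodule.Quotient.mk (frT act n - n - ⟨y, hy⟩) : _ ⧸ S) = 0 := by
    rw [Submodule.Quotient.mk_sub, Submodule.Quotient.mk_sub, sub_eq_zero]
    exact hx
  rw [Submodule.Quotient.mk_eq_zero] at h1
  obtain ⟨m, δ, hm1, hm2, hδ1, hδ2, he⟩ := h1
  refine ⟨-m, n.1, -δ, fun g => by rw [st_neg, hm1], fun χ => ?_, n.2, fun χ => ?_, ?_⟩
  · exact (intSub k L).neg_mem (hm2 χ)
  · exact A.nonunits.neg_mem (hδ2 χ)
  · have he' : (frT act n).1 - n.1 - y = m + δ := he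
    have hw : (wp p L).comp n.1 = (frT act n).1 - n.1 := rfl
    rw [hw]
    have : y = (frT act n).1 - n.1 - (m + δ) := by
      rw [← he']
      abel
    rw [this]
    abel

end

end Pool.Agent.Helper54.PW
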